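import Pool.Agent.MT100G.Stmts

/-! Module PRS of MT100-GEN: relations persist under the product of the symplectic groups. -/

set_option autoImplicit false
set_option linter.unusedSectionVars false

namespace Pool.Agent.MT100G.H98

open Matrix MvPolynomial Pool.Agent.MT100 Pool.Agent.Helper78_MT Pool.Agent.MT100G

variable {d : Type} [Fintype d] [DecidableEq d]

theorem Aut.det_unit {J0 : Matrix d d ℚ} (hJ : IsUnit J0.det) {g : Matrix d d ℂ} (hg : g ∈ Aut J0) :
    IsUnit g.det := by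
  have h : gᵀ * J0.map (algebraMap ℚ ℂ) * g = J0.map (algebraMap ℚ ℂ) := hg
  have h2 := congrArg Matrix.det h
  rw [Matrix.det_mul, Matrix.det_mul, Matrix.det_transpose] at h2
  have hJ' : (J0.map (algebraMap ℚ ℂ)).det ≠ 0 := by
    have : (J0.map (algebraMap ℚ ℂ)).det = algebraMap ℚ ℂ J0.det := by
      rw [RingHom.map_det]; rfl
    rw [this]
    simpa using hJ.ne_zero
  rw [isUnit_iff_ne_zero]
  intro h0
  rw [h0] at h2
  simp at h2
  exact hJ' h2.symm

theorem Aut.mul {J0 : Matrix d d ℚ} {g g' : Matrix d d ℂ} (hg : g ∈ Aut J0) (hg' : g' ∈ Aut J0) :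
    g * g' ∈ Aut J0 := by
  have h : gᵀ * J0.map (algebraMap ℚ ℂ) * g = J0.map (algebraMap ℚ ℂ) := hg
  have h' : g'ᵀ * J0.map (algebraMap ℚ ℂ) * g' = J0.map (algebraMap ℚ ℂ) := hg'
  show (g * g')ᵀ * J0.map (algebraMap ℚ ℂ) * (g * g') = J0.map (algebraMap ℚ ℂ)
  calc (g * g')ᵀ * J0.map (algebraMap ℚ ℂ) * (g * g')
      = g'ᵀ * (gᵀ * J0.map (algebraMap ℚ ℂ) * g) * g' := by
        rw [Matrix.transpose_mul]; simp only [Matrix.mul_assoc]
    _ = _ := by rw [h, h']

theorem Aut.inv {J0 : Matrix d d ℚ} (hJ : IsUnit J0.det) {g : Matrix d d ℂ} (hg : g ∈ Aut J0) :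
    g⁻¹ ∈ Aut J0 := by
  have h : gᵀ * J0.map (algebraMap ℚ ℂ) * g = J0.map (algebraMap ℚ ℂ) := hg
  have hu := Aut.det_unit hJ hg
  show (g⁻¹)ᵀ * J0.map (algebraMap ℚ ℂ) * g⁻¹ = J0.map (algebraMap ℚ ℂ)
  have h1 : (g⁻¹)ᵀ * gᵀ = 1 := by
    rw [← Matrix.transpose_mul, Matrix.mul_nonsing_inv _ hu, Matrix.transpose_one]
  calc (g⁻¹)ᵀ * J0.map (algebraMap ℚ ℂ) * g⁻¹
      = (g⁻¹)ᵀ * (gᵀ * J0.map (algebraMap ℚ ℂ) * g) * g⁻¹ := by rw [h]
    _ = ((g⁻¹)ᵀ * gᵀ) * J0.map (algebraMap ℚ ℂ) * (g * g⁻¹) := by simp only [Matrix.mul_assoc]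
    _ = _ := by rw [h1, Matrix.mul_nonsing_inv _ hu]; simp

theorem Aut.one {J0 : Matrix d d ℚ} : (1 : Matrix d d ℂ) ∈ Aut J0 := by
  show (1 : Matrix d d ℂ)ᵀ * J0.map (algebraMap ℚ ℂ) * 1 = J0.map (algebraMap ℚ ℂ)
  simp

/-- the substitution `Y i ↦ Y i * g i` -/
noncomputable def sbG {ι : Type} (g : ι → Matrix d d ℂ) :
    Bool ⊕ (ι × d × d) → MvPolynomial (Bool ⊕ (ι × d × d)) ℂ
  | Sum.inl b => X (Sum.inl b)
  | Sum.inr x => ∑ c, X (Sum.inr (x.1, x.2.1, c)) * C (g x.1 c x.2.2)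

theorem eval_sbG {ι : Type} (g : ι → Matrix d d ℂ) (w l : ℂ) (Y : ι → Matrix d d ℂ)
    (Φ : MvPolynomial (Bool ⊕ (ι × d × d)) ℂ) :
    MvPolynomial.eval (vr w l Y) (bind₁ (sbG g) Φ) =
      MvPolynomial.eval (vr w l fun i => Y i * g i) Φ := by
  rw [← MvPolynomial.coe_aeval_eq_eval, ← MvPolynomial.coe_aeval_eq_eval]
  show (aeval (vr w l Y)) ((bind₁ (sbG g)) Φ) = (aeval (vr w l fun i => Y i * g i)) Φ
  rw [MvPolynomial.aeval_bind₁]
  congr 2
  funext v
  rcases v with b | ⟨i, a, b⟩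
  · cases b <;> simp [sbG, vr]
  · simp [sbG, vr, Matrix.mul_apply]

/-- the substitution which keeps only the entries of the matrix with index `j` as variables -/
noncomputable def sbJ {ι : Type} [DecidableEq ι] (j : ι) (w l : ℂ) (Z : Matrix d d ℂ)
    (Y : ι → Matrix d d ℂ) : Bool ⊕ (ι × d × d) → MvPolynomial (d × d) ℂ
  | Sum.inl false => C w
  | Sum.inl true => C l
  | Sum.inr x => if x.1 = j then ∑ c, C (Z x.2.1 c) * X (c, x.2.2) else C (Y x.1 x.2.1 x.2.2)

theorem pev_sbJ {ι : Type} [DecidableEq ι] (j : ι) (w l : ℂ) (Z : Matrix d d ℂ)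
    (Y : ι → Matrix d d ℂ) (T : Matrix d d ℂ) (Φ : MvPolynomial (Bool ⊕ (ι × d × d)) ℂ) :
    pev T (bind₁ (sbJ j w l Z Y) Φ) =
      MvPolynomial.eval (vr w l (Function.update Y j (Z * T))) Φ := by
  unfold pev
  rw [← MvPolynomial.coe_aeval_eq_eval]
  show (aeval _) ((bind₁ (sbJ j w l Z Y)) Φ) = _
  rw [MvPolynomial.aeval_bind₁]
  show _ = (aeval (vr w l (Function.update Y j (Z * T)))) Φ
  congr 2
  funext v
  rcases v with b | ⟨i, a, b⟩
  · cases b <;> simp [sbJ, vr]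
  · by_cases hij : i = j
    · subst hij
      simp [sbJ, vr, Matrix.mul_apply]
    · simp [sbJ, vr, hij, Function.update_of_ne]

/-- the kernel group at `j` is Zariski dense in the symplectic group -/
theorem dense_ker (hM : MonStmt) (h1 : Tu1Stmt) (h2 : Tu2Stmt) (h3 : Tu3Stmt) (hN : NrmStmt)
    (hC : ComStmt) (F : Fam d) (hd : 2 ≤ Fintype.card d) {ι : Type} [Fintype ι] (κ : ι → ℕ)
    (j : ι) (f : MvPolynomial (d × d) ℂ)
    (hf : ∀ t ∈ tup F.H F.N F.q F.B κ, t.2 = 0 → (∀ i, κ i < κ j → t.1 i = 1) →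
      pev (t.1 j) f = 0) : ∀ g ∈ Aut F.J0, pev g f = 0 := by
  obtain ⟨hMA, hM1, hMm, hMi⟩ := hM d F
  obtain ⟨hT0, hT1, hTm, hTi⟩ := h1 d F ι κ
  have hu : ∀ t ∈ tup F.H F.N F.q F.B κ, ∀ i, IsUnit (t.1 i).det := fun t ht i =>
    Aut.det_unit F.unit (hMA (hT0 t ht i))
  let Γ : Set (Matrix d d ℂ) := {a | ∃ t ∈ tup F.H F.N F.q F.B κ, t.2 = 0 ∧
    (∀ i, κ i < κ j → t.1 i = 1) ∧ t.1 j = a}
  refine hN d F.J0 F.skew F.unit (mon F.H F.N F.q F.B Set.univ) Γ F.big hMA ?_ ?_ ?_ ?_ ?_ ?_ f ?_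
  · rintro a ⟨t, ht, -, -, rfl⟩
    exact hMA (hT0 t ht j)
  · exact ⟨_, hT1, rfl, fun _ _ => rfl, rfl⟩
  · rintro a ⟨t, ht, ht0, ht1, rfl⟩ b ⟨s, hs, hs0, hs1, rfl⟩
    refine ⟨_, hTm t ht s hs, ?_, ?_, rfl⟩
    · simp [ht0, hs0]
    · intro i hi
      simp [ht1 i hi, hs1 i hi]
  · rintro a ⟨t, ht, ht0, ht1, rfl⟩
    refine ⟨_, hTi t ht, ?_, ?_, rfl⟩
    · simp [ht0]
    · intro i hi
      simp [ht1 i hi]
  · rintro m hm a ⟨t, ht, ht0, ht1, rfl⟩
    obtain ⟨s, hs, rfl⟩ := h2 d F ι κ j m hm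
    have hA := hTm s hs t ht
    have hB := hTm _ hA _ (hTi s hs)
    refine ⟨_, hB, ?_, ?_, rfl⟩
    · simp [ht0]
    · intro i hi
      have := Matrix.mul_nonsing_inv _ (hu s hs i)
      simp [ht1 i hi, this]
  · obtain ⟨t, ht, htj, hti⟩ := h3 d F hd ι κ j
    obtain ⟨m, hm, hnm⟩ := hC d F.J0 F.skew F.unit (mon F.H F.N F.q F.B Set.univ) F.big hMA
      (t.1 j) (hMA (hT0 t ht j)) htj
    obtain ⟨s, hs, rfl⟩ := h2 d F ι κ j m hm
    have hA := hTm t ht s hs
    have hB := hTm _ hA _ (hTi t ht)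
    have hD := hTm _ hB _ (hTi s hs)
    refine ⟨_, ⟨_, hD, ?_, ?_, rfl⟩, hnm⟩
    · simp
    · intro i hi
      obtain ⟨c, hc⟩ := hti i hi
      have hut := hu t ht i
      have hus := hu s hs i
      have hcomm : t.1 i * s.1 i = s.1 i * t.1 i := by rw [hc]; simp
      show t.1 i * s.1 i * (t.1 i)⁻¹ * (s.1 i)⁻¹ = 1
      rw [hcomm, Matrix.mul_assoc (s.1 i), Matrix.mul_nonsing_inv _ hut, Matrix.mul_one,
        Matrix.mul_nonsing_inv _ hus]
  · rintro a ⟨t, ht, ht0, ht1, rfl⟩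
    exact hf t ht ht0 ht1

theorem prs (hM : MonStmt) (h1 : Tu1Stmt) (h2 : Tu2Stmt) (h3 : Tu3Stmt) (hN : NrmStmt)
    (hC : ComStmt) (hP : PrmStmt) : PrsStmt := by
  intro d _ _ F hd ι _ _ κ hκ
  obtain ⟨hMA, -, -, -⟩ := hM d F
  obtain ⟨hT0, hT1, hTm, hTi⟩ := h1 d F ι κ
  obtain ⟨R0, hR0⟩ := hP d F ι κ
  refine ⟨R0, fun Φ hΦ => ?_⟩
  have key : ∀ n : ℕ, ∀ s : Finset ι, s.card = n → (∀ i ∈ s, ∀ i', κ i < κ i' → i' ∈ s) →
      ∀ w : ℝ, R0 < w → ∀ g : ι → Matrix d d ℂ, (∀ i, g i ∈ Aut F.J0) → (∀ i, i ∉ s → g i = 1) →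
        MvPolynomial.eval (vr (w : ℂ) (Complex.log w)
          fun i => YH F.H F.N ((w : ℂ) - κ i) * g i) Φ = 0 := by
    intro n
    induction n with
    | zero =>
      intro s hs hup w hw g hg hg1
      have hs0 : s = ∅ := Finset.card_eq_zero.mp hs
      have hgg : g = fun _ => 1 := by
        funext i
        exact hg1 i (by simp [hs0])
      subst hgg
      have := hR0 Φ hΦ _ hT1 w hw
      simpa using this
    | succ n ih =>
      intro s hs hup w hw g hg hg1
      have hne : s.Nonempty := by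
        rw [← Finset.card_pos]; omega
      obtain ⟨j, hj, hmin⟩ := Finset.exists_min_image s κ hne
      have hcard : (s.erase j).card = n := by
        rw [Finset.card_erase_of_mem hj, hs]; rfl
      have hup' : ∀ i ∈ s.erase j, ∀ i', κ i < κ i' → i' ∈ s.erase j := by
        intro i hi i' hii'
        rw [Finset.mem_erase] at hi ⊢
        refine ⟨?_, hup i hi.2 i' hii'⟩
        rintro rfl
        exact absurd (hmin i hi.2) (not_le.mpr hii')
      have hlow : ∀ i, i ∉ s → κ i < κ j := by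
        intro i hi
        rcases lt_trichotomy (κ i) (κ j) with h | h | h
        · exact h
        · exact absurd (hκ h ▸ hj) hi
        · exact absurd (hup j hj i h) hi
      -- the polynomial in the entries of the matrix at `j`
      let Y : ι → Matrix d d ℂ := fun i => YH F.H F.N ((w : ℂ) - κ i) * g i
      have hpoly : ∀ T ∈ Aut F.J0,
          pev T (bind₁ (sbJ j (w : ℂ) (Complex.log w) (YH F.H F.N ((w : ℂ) - κ j)) Y) Φ) = 0 := by
        refine dense_ker hM h1 h2 h3 hN hC F hd κ j _ ?_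
        intro t ht ht0 ht1
        rw [pev_sbJ]
        -- the matrices for the induction hypothesis
        let g' : ι → Matrix d d ℂ := fun i => if i = j then 1 else (t.1 i)⁻¹ * g i
        have hg' : ∀ i, g' i ∈ Aut F.J0 := by
          intro i
          by_cases hij : i = j
          · simp only [g', hij, if_true]; exact Aut.one
          · simp only [g', hij, if_false]
            exact Aut.mul (Aut.inv F.unit (hMA (hT0 t ht i))) (hg i)
        have hg'1 : ∀ i, i ∉ s.erase j → g' i = 1 := by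
          intro i hi
          by_cases hij : i = j
          · simp [g', hij]
          · have his : i ∉ s := fun h => hi (Finset.mem_erase.mpr ⟨hij, h⟩)
            simp [g', hij, ht1 i (hlow i his), hg1 i his]
        have hih : ∀ w : ℝ, R0 < w → MvPolynomial.eval (vr (w : ℂ) (Complex.log w)
            fun i => YH F.H F.N ((w : ℂ) - κ i)) (bind₁ (sbG g') Φ) = 0 := by
          intro w' hw'
          rw [eval_sbG]
          exact ih (s.erase j) hcard hup' w' hw' g' hg' hg'1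
        have hev : ∀ᶠ w : ℝ in Filter.atTop, MvPolynomial.eval (vr (w : ℂ) (Complex.log w)
            fun i => YH F.H F.N ((w : ℂ) - κ i)) (bind₁ (sbG g') Φ) = 0 :=
          (Filter.eventually_gt_atTop R0).mono hih
        have hres := hR0 _ hev t ht w hw
        rw [eval_sbG, ht0] at hres
        have hY : Function.update Y j (YH F.H F.N ((w : ℂ) - κ j) * t.1 j) =
            fun i => YH F.H F.N ((w : ℂ) - κ i) * t.1 i * g' i := by
          funext i
          by_cases hij : i = j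
          · subst hij
            simp [g']
          · rw [Function.update_of_ne hij]
            have hut : IsUnit (t.1 i).det := Aut.det_unit F.unit (hMA (hT0 t ht i))
            simp only [g', hij, if_false, Y]
            rw [Matrix.mul_assoc, ← Matrix.mul_assoc (t.1 i), Matrix.mul_nonsing_inv _ hut,
              Matrix.one_mul]
        rw [hY]
        simpa using hres
      have hfin := hpoly (g j) (hg j)
      rw [pev_sbJ] at hfin
      have hY : Function.update Y j (YH F.H F.N ((w : ℂ) - κ j) * g j) = Y := by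
        funext i
        by_cases hij : i = j
        · subst hij
          simp [Y]
        · rw [Function.update_of_ne hij]
      rw [hY] at hfin
      exact hfin
  intro w hw g hg
  exact key _ Finset.univ rfl (fun _ _ _ _ => Finset.mem_univ _) w hw g hg
    (fun i hi => absurd (Finset.mem_univ i) hi)

end Pool.Agent.MT100G.H98
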